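import Pool.Agent.MWF.Stmts

/-!
# MWF, row SIM: simple letters stay simple
-/

namespace Pool.Agent.MWF.H42

open Pool.Agent.Helper14_MV Pool.Agent.Helper2_MV

theorem sim (hp : PowStmt) (hc : CttStmt) : SimStmt := by
  intro β hβ u v huv c hu
  have h1 := huv.filter (fun d => decide (d = c))
  have eu : u.filter (fun d => decide (d = c)) = List.replicate (u.count c) c :=
    List.filter_eq c
  have ev : v.filter (fun d => decide (d = c)) = List.replicate (v.count c) c :=
    List.filter_eq c
  rw [eu, ev, hu] at h1
  have hcu : c ∈ u := by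
    by_contra hn
    rw [List.count_eq_zero_of_not_mem hn] at hu
    omega
  have hcv : c ∈ v := (hc β hβ u v huv c).1 hcu
  have hpos : 0 < v.count c := List.count_pos_iff.2 hcv
  by_contra hne
  have hge : 2 ≤ v.count c := by omega
  have h2 := hp β hβ.sq c (v.count c) 2 hge le_rfl
  have h3 : RR β (List.replicate 1 c) (List.replicate 2 c) := β.trans h1 h2
  have h4 := h3.sub (fun _ => [0])
  exact hβ.ncr h4

end Pool.Agent.MWF.H42
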